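import Pool.Agent.Helper54.Hf.R1

set_option autoImplicit false
set_option maxHeartbeats 1000000

/-!
The heat flow at negative times as a Gaussian average along vertical lines.
-/

open Complex MeasureTheory Set Filter Topology

namespace Pool.Agent.Helper54.Nt

open Pool.Agent.Helper242.KK (FT Ph)
open Pool.Agent.Helper54.Xm Pool.Agent.Helper54.Hf

/-- a point of the vertical line -/
noncomputable def ln (b u : ℝ) : ℂ := (b : ℂ) + (u : ℂ) * I

lemma ln_re (b u : ℝ) : (ln b u).re = b := by simp [ln]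
lemma ln_im (b u : ℝ) : (ln b u).im = u := by simp [ln]

lemma ln_cont (b : ℝ) : Continuous (ln b) := by unfold ln; fun_prop

lemma gauss_line {τ : ℝ} (hτ : 0 < τ) (b t : ℝ) (w : ℂ) :
    ∫ u : ℝ, cexp (ln b u * t + (ln b u - w) ^ 2 / (4 * τ)) =
      (Real.sqrt (4 * Real.pi * τ) : ℂ) * cexp (w * t - τ * t ^ 2) := by
  have hτ' : (τ : ℂ) ≠ 0 := by exact_mod_cast hτ.ne'
  have hb : (-(1 / (4 * (τ : ℂ)))).re < 0 := by
    have : (-(1 / (4 * (τ : ℂ)))) = ((-(1 / (4 * τ)) : ℝ) : ℂ) := by push_cast; ring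
    rw [this, Complex.ofReal_re]
    have : 0 < 1 / (4 * τ) := by positivity
    linarith
  have h := integral_cexp_quadratic hb (I * t + I * ((b : ℂ) - w) / (2 * τ))
    (b * t + ((b : ℂ) - w) ^ 2 / (4 * τ))
  have e1 : ∀ u : ℝ, cexp (ln b u * t + (ln b u - w) ^ 2 / (4 * τ)) =
      cexp (-(1 / (4 * (τ : ℂ))) * (u : ℂ) ^ 2 + (I * t + I * ((b : ℂ) - w) / (2 * τ)) * u +
        (b * t + ((b : ℂ) - w) ^ 2 / (4 * τ))) := by
    intro u
    congr 1
    unfold ln
    field_simp
    linear_combination (2 * (u : ℂ) ^ 2) * I_sq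
  simp only [e1]
  rw [h]
  congr 1
  · rw [neg_neg]
    have e2 : (Real.pi : ℂ) / (1 / (4 * (τ : ℂ))) = ((4 * Real.pi * τ : ℝ) : ℂ) := by
      push_cast; field_simp
    rw [e2, Real.sqrt_eq_rpow, Complex.ofReal_cpow (by positivity)]
    norm_num
  · congr 1
    field_simp
    linear_combination (4 * (((b : ℂ) - w) ^ 2 + 4 * τ * t * ((b : ℂ) - w) + 4 * τ ^ 2 * t ^ 2)) * I_sq

lemma norm_gk {τ : ℝ} (b u : ℝ) (w : ℂ) :
    ‖cexp ((ln b u - w) ^ 2 / (4 * τ))‖ =
      Real.exp (((b - w.re) ^ 2 - (u - w.im) ^ 2) / (4 * τ)) := by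
  rw [Complex.norm_exp]
  congr 1
  have e0 : (4 * (τ : ℂ)) = ((4 * τ : ℝ) : ℂ) := by push_cast; ring
  rw [e0, Complex.div_ofReal_re]
  congr 1
  rw [sq, Complex.mul_re, Complex.sub_re, Complex.sub_im, ln_re, ln_im]
  ring

lemma gk_int {τ : ℝ} (hτ : 0 < τ) (c : ℝ) :
    Integrable (fun u : ℝ => Real.exp (-(u - c) ^ 2 / (4 * τ))) := by
  have h := (integrable_exp_neg_mul_sq (b := 1 / (4 * τ)) (by positivity)).comp_sub_right c
  refine h.congr (Eventually.of_forall fun u => ?_)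
  simp only
  congr 1
  ring

/-- the representation of the heat flow at time `-τ` -/
theorem Hx_neg {τ : ℝ} (hτ : 0 < τ) (b : ℝ) (w : ℂ) :
    ∫ u : ℝ, fx (ln b u) * cexp ((ln b u - w) ^ 2 / (4 * τ)) =
      (Real.sqrt (4 * Real.pi * τ) : ℂ) * Hx (-τ) w := by
  obtain ⟨A, hA⟩ := wt_gb (t := 0) (by norm_num)
  rw [wt_zero] at hA
  have hPc : Continuous Ph := Pool.Agent.Helper242.KK.continuous_Ph
  have h1 : ∀ u : ℝ, fx (ln b u) * cexp ((ln b u - w) ^ 2 / (4 * τ)) =
      ∫ t : ℝ, 8 * ((Ph t : ℝ) : ℂ) * cexp (ln b u * t + (ln b u - w) ^ 2 / (4 * τ)) := by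
    intro u
    rw [fx_eq_ft, Hx, wt_zero]
    unfold FT
    rw [mul_assoc, ← integral_mul_const, ← integral_const_mul]
    refine integral_congr_ae (Eventually.of_forall fun t => ?_)
    simp only
    rw [Complex.exp_add]
    have e : I * -(I * ln b u) * (t : ℂ) = ln b u * t := by
      linear_combination (-(ln b u) * t) * I_sq
    rw [e]
    ring
  simp only [h1]
  have hFi : Integrable (Function.uncurry (fun u t : ℝ =>
      8 * ((Ph t : ℝ) : ℂ) * cexp (ln b u * t + (ln b u - w) ^ 2 / (4 * τ))))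
      (volume.prod volume) := by
    have hcont : Continuous (Function.uncurry (fun u t : ℝ =>
      8 * ((Ph t : ℝ) : ℂ) * cexp (ln b u * t + (ln b u - w) ^ 2 / (4 * τ)))) := by
      unfold Function.uncurry ln
      fun_prop
    have hg : Integrable (fun t : ℝ => 8 * (|Ph t| * Real.exp (|b| * |t|))) := by
      refine (Integrable.mono' (GB.int A |b|) ?_ ?_).const_mul 8
      · exact (by fun_prop : Continuous (fun t : ℝ => |Ph t| * Real.exp (|b| * |t|))).aestronglyMeasurable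
      · refine Eventually.of_forall fun t => ?_
        rw [Real.norm_of_nonneg (by positivity)]
        exact hA.bd _ t
    have hf : Integrable (fun u : ℝ => Real.exp ((b - w.re) ^ 2 / (4 * τ)) *
        Real.exp (-(u - w.im) ^ 2 / (4 * τ))) := (gk_int hτ _).const_mul _
    refine Integrable.mono' (Integrable.mul_prod hf hg) hcont.aestronglyMeasurable ?_
    refine Eventually.of_forall fun p => ?_
    obtain ⟨u, t⟩ := p
    simp only [Function.uncurry]
    rw [Complex.exp_add, norm_mul, norm_mul, norm_mul, norm_gk, Complex.norm_real, Complex.norm_exp]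
    have e1 : ‖(8 : ℂ)‖ = 8 := by norm_num
    have e2 : (ln b u * (t : ℂ)).re = b * t := by
      rw [Complex.mul_re, ln_re, ln_im]; simp
    have e3 : Real.exp (((b - w.re) ^ 2 - (u - w.im) ^ 2) / (4 * τ)) =
        Real.exp ((b - w.re) ^ 2 / (4 * τ)) * Real.exp (-(u - w.im) ^ 2 / (4 * τ)) := by
      rw [← Real.exp_add, ← add_div, sub_eq_add_neg]
    rw [e1, e2, Real.norm_eq_abs]
    have h3 : b * t ≤ |b| * |t| := by rw [← abs_mul]; exact le_abs_self _
    calc 8 * |Ph t| * (Real.exp (b * t) * Real.exp (((b - w.re) ^ 2 - (u - w.im) ^ 2) / (4 * τ)))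
        ≤ 8 * |Ph t| * (Real.exp (|b| * |t|) * Real.exp (((b - w.re) ^ 2 - (u - w.im) ^ 2) / (4 * τ))) := by
          gcongr
      _ = _ := by
          rw [e3]
          ring
  rw [integral_integral_swap hFi]
  have h2 : ∀ t : ℝ, ∫ u : ℝ, 8 * ((Ph t : ℝ) : ℂ) * cexp (ln b u * t + (ln b u - w) ^ 2 / (4 * τ)) =
      8 * ((Ph t : ℝ) : ℂ) * ((Real.sqrt (4 * Real.pi * τ) : ℂ) * cexp (w * t - τ * t ^ 2)) := by
    intro t
    rw [integral_const_mul, gauss_line hτ]
  simp only [h2]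
  unfold Hx FT wt
  rw [← integral_const_mul, ← integral_const_mul]
  refine integral_congr_ae (Eventually.of_forall fun t => ?_)
  simp only
  have e : I * -(I * w) * (t : ℂ) = w * t := by
    linear_combination (-w * t) * I_sq
  rw [e, sub_eq_add_neg, Complex.exp_add]
  push_cast
  rw [show -(τ : ℂ) * (t : ℂ) ^ 2 = -((τ : ℂ) * (t : ℂ) ^ 2) by ring]
  ring

end Pool.Agent.Helper54.Nt
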