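import Pool.Agent.Helper54.Nt.G1
import Pool.Agent.Helper54.Xm.Ver

set_option autoImplicit false
set_option maxHeartbeats 1000000

/-!
Growth estimates for the gamma factor along segments.
-/

open Complex MeasureTheory Set Filter Topology

namespace Pool.Agent.Helper54.Nt

open Pool.Agent.Helper54.Xm Pool.Agent.Helper54.Hf

lemma grow {G q : ℝ → ℂ} {K : ℝ} (h1 : ∀ s ∈ Icc (0 : ℝ) 1, HasDerivAt G (q s * G s) s)
    (h2 : ∀ s ∈ Icc (0 : ℝ) 1, (q s).re ≤ K) {s : ℝ} (hs : s ∈ Icc (0 : ℝ) 1) :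
    ‖G s‖ ≤ ‖G 0‖ * Real.exp (K * s) := by
  set φ : ℝ → ℝ := fun s => ‖G s‖ ^ 2 * Real.exp (-(2 * K * s)) with hφ
  have hd : ∀ s ∈ Icc (0 : ℝ) 1, HasDerivAt φ (2 * ((q s).re - K) * φ s) s := by
    intro s hs
    have a1 := (h1 s hs).norm_sq
    have a2 : HasDerivAt (fun s : ℝ => Real.exp (-(2 * K * s))) (Real.exp (-(2 * K * s)) * (-(2 * K))) s := by
      have : HasDerivAt (fun s : ℝ => -(2 * K * s)) (-(2 * K)) s := by
        have a5 := (hasDerivAt_id s).const_mul (-(2 * K))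
        simp only [id, mul_one, neg_mul] at a5
        exact a5
      exact this.exp
    have a3 := a1.mul a2
    refine a3.congr_deriv ?_
    have a4 : inner ℝ (G s) (q s * G s) = (q s).re * ‖G s‖ ^ 2 := by
      rw [Complex.inner]
      have : q s * G s * (starRingEnd ℂ) (G s) = q s * ((‖G s‖ ^ 2 : ℝ) : ℂ) := by
        rw [mul_assoc, Complex.mul_conj, Complex.normSq_eq_norm_sq]
      rw [this]; rw [Complex.re_mul_ofReal]
    simp only [hφ]
    rw [a4]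
    ring
  have hanti : AntitoneOn φ (Icc (0 : ℝ) 1) := by
    apply antitoneOn_of_deriv_nonpos (convex_Icc 0 1)
    · intro s hs
      exact (hd s hs).continuousAt.continuousWithinAt
    · intro s hs
      rw [interior_Icc] at hs
      exact (hd s ⟨hs.1.le, hs.2.le⟩).differentiableAt.differentiableWithinAt
    · intro s hs
      rw [interior_Icc] at hs
      rw [(hd s ⟨hs.1.le, hs.2.le⟩).deriv]
      have b1 : (q s).re - K ≤ 0 := by linarith [h2 s ⟨hs.1.le, hs.2.le⟩]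
      have b2 : 0 ≤ φ s := by simp only [hφ]; positivity
      nlinarith
  have h3 := hanti (left_mem_Icc.2 zero_le_one) hs hs.1
  simp only [hφ, mul_zero, neg_zero, Real.exp_zero, mul_one] at h3
  have h4 : ‖G s‖ ^ 2 ≤ (‖G 0‖ * Real.exp (K * s)) ^ 2 := by
    rw [mul_pow, ← Real.exp_nat_mul]
    have e : ((2 : ℕ) : ℝ) * (K * s) = 2 * K * s := by push_cast; ring
    rw [e]
    have h5 : ‖G s‖ ^ 2 = ‖G s‖ ^ 2 * Real.exp (-(2 * K * s)) * Real.exp (2 * K * s) := by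
      rw [mul_assoc, ← Real.exp_add]
      simp
    rw [h5]
    gcongr
  exact le_of_sq_le_sq h4 (by positivity) 

lemma grow_sub {G q : ℝ → ℂ} {K : ℝ} (hK : 0 ≤ K) (h1 : ∀ s ∈ Icc (0 : ℝ) 1, HasDerivAt G (q s * G s) s)
    (h2 : ∀ s ∈ Icc (0 : ℝ) 1, ‖q s‖ ≤ K) :
    ‖G 1 - G 0‖ ≤ K * Real.exp K * ‖G 0‖ := by
  have h3 : ∀ s ∈ Icc (0 : ℝ) 1, ‖G s‖ ≤ ‖G 0‖ * Real.exp K := by
    intro s hs
    refine (grow h1 (fun s hs => (Complex.re_le_norm _).trans (h2 s hs)) hs).trans ?_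
    gcongr
    nlinarith [hs.1, hs.2]
  have h4 := norm_image_sub_le_of_norm_deriv_le_segment_01' (f := G) (f' := fun s => q s * G s)
    (C := K * Real.exp K * ‖G 0‖) (fun s hs => (h1 s hs).hasDerivWithinAt) (fun s hs => by
      rw [norm_mul]
      calc ‖q s‖ * ‖G s‖ ≤ K * (‖G 0‖ * Real.exp K) :=
            mul_le_mul (h2 s ⟨hs.1, hs.2.le⟩) (h3 s ⟨hs.1, hs.2.le⟩) (norm_nonneg _) hK
        _ = _ := by ring)
  exact h4

/-- the estimate of the logarithmic derivative of the gamma factor -/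
def GE (C : ℝ) : Prop := 1 ≤ C ∧ ∀ w : ℂ, 4 ≤ w.im → |w.re| ≤ w.im / 2 →
    Gx w ≠ 0 ∧ DifferentiableAt ℂ Gx w ∧
    ‖logDeriv Gx w - ((1 / 2 * Real.log w.im : ℝ) : ℂ)‖ ≤ C

lemma exists_GE : ∃ C, GE C := logDeriv_Gx

lemma GE.line {C : ℝ} (h : GE C) {z h0 : ℂ}
    (hz : ∀ s ∈ Icc (0 : ℝ) 1, 4 ≤ (z + s * h0).im ∧ |(z + s * h0).re| ≤ (z + s * h0).im / 2) :
    ∀ s ∈ Icc (0 : ℝ) 1, HasDerivAt (fun s : ℝ => Gx (z + s * h0))
      ((h0 * logDeriv Gx (z + s * h0)) * Gx (z + s * h0)) s := by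
  intro s hs
  obtain ⟨h1, h2⟩ := hz s hs
  obtain ⟨h3, h4, -⟩ := h.2 _ h1 h2
  have h5 : HasDerivAt (fun s : ℝ => z + (s : ℂ) * h0) h0 s := by
    have : HasDerivAt (fun s : ℝ => (s : ℂ)) 1 s := Complex.ofRealCLM.hasDerivAt
    simpa using (this.mul_const h0).const_add z
  have h6 := h4.hasDerivAt.comp_of_eq s h5 rfl
  refine h6.congr_deriv ?_
  rw [logDeriv_apply]
  field_simp

/-- horizontal growth -/
lemma GE.hor {C : ℝ} (h : GE C) {a b x : ℝ} (hx : 4 ≤ x) (ha : |a| ≤ x / 2) (hb : |b| ≤ x / 2) :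
    ‖Gx ⟨b, x⟩‖ ≤ ‖Gx ⟨a, x⟩‖ * Real.exp ((b - a) * (1 / 2 * Real.log x) + C * |b - a|) := by
  have hz : ∀ s ∈ Icc (0 : ℝ) 1, 4 ≤ ((⟨a, x⟩ : ℂ) + s * ((b - a : ℝ) : ℂ)).im ∧
      |((⟨a, x⟩ : ℂ) + s * ((b - a : ℝ) : ℂ)).re| ≤ ((⟨a, x⟩ : ℂ) + s * ((b - a : ℝ) : ℂ)).im / 2 := by
    intro s hs
    have e1 : ((⟨a, x⟩ : ℂ) + s * ((b - a : ℝ) : ℂ)).im = x := by simp
    have e2 : ((⟨a, x⟩ : ℂ) + s * ((b - a : ℝ) : ℂ)).re = (1 - s) * a + s * b := by simp; ring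
    rw [e1, e2]
    refine ⟨hx, ?_⟩
    rw [abs_le] at ha hb ⊢
    obtain ⟨s0, s1⟩ := hs
    constructor <;> nlinarith
  have h1 := h.line hz
  have h2 := grow (K := (b - a) * (1 / 2 * Real.log x) + C * |b - a|) h1 (by
    intro s hs
    obtain ⟨-, -, h3⟩ := h.2 _ (hz s hs).1 (hz s hs).2
    have e1 : ((⟨a, x⟩ : ℂ) + s * ((b - a : ℝ) : ℂ)).im = x := by simp
    rw [e1] at h3
    set D := logDeriv Gx ((⟨a, x⟩ : ℂ) + s * ((b - a : ℝ) : ℂ))
    have h4 : (((b - a : ℝ) : ℂ) * D).re = (b - a) * D.re := by rw [Complex.re_ofReal_mul]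
    rw [h4]
    have h5 : |D.re - 1 / 2 * Real.log x| ≤ C := by
      refine le_trans ?_ h3
      have := Complex.abs_re_le_norm (D - ((1 / 2 * Real.log x : ℝ) : ℂ))
      rwa [Complex.sub_re, Complex.ofReal_re] at this
    have h6 : (b - a) * (D.re - 1 / 2 * Real.log x) ≤ |b - a| * C := by
      refine (le_abs_self _).trans ?_
      rw [abs_mul]
      gcongr
    linarith) (right_mem_Icc.2 zero_le_one)
  have e3 : (⟨a, x⟩ : ℂ) + ((1 : ℝ) : ℂ) * ((b - a : ℝ) : ℂ) = ⟨b, x⟩ := by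
    apply Complex.ext <;> simp
  have e4 : (⟨a, x⟩ : ℂ) + ((0 : ℝ) : ℂ) * ((b - a : ℝ) : ℂ) = ⟨a, x⟩ := by
    simp
  simp only [e3, e4, mul_one] at h2
  exact h2

/-- vertical growth -/
lemma GE.ver {C : ℝ} (h : GE C) {a x u : ℝ} (hx : 4 ≤ x) (hu : 4 ≤ u) (ha : |a| ≤ x / 2)
    (hb : |a| ≤ u / 2) :
    ‖Gx ⟨a, u⟩‖ ≤ ‖Gx ⟨a, x⟩‖ * Real.exp (C * |u - x|) := by
  have hz : ∀ s ∈ Icc (0 : ℝ) 1, 4 ≤ ((⟨a, x⟩ : ℂ) + s * (((u - x : ℝ) : ℂ) * I)).im ∧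
      |((⟨a, x⟩ : ℂ) + s * (((u - x : ℝ) : ℂ) * I)).re| ≤
        ((⟨a, x⟩ : ℂ) + s * (((u - x : ℝ) : ℂ) * I)).im / 2 := by
    intro s hs
    have e1 : ((⟨a, x⟩ : ℂ) + s * (((u - x : ℝ) : ℂ) * I)).im = (1 - s) * x + s * u := by simp; ring
    have e2 : ((⟨a, x⟩ : ℂ) + s * (((u - x : ℝ) : ℂ) * I)).re = a := by simp
    rw [e1, e2]
    obtain ⟨s0, s1⟩ := hs
    constructor <;> nlinarith
  have h1 := h.line hz
  have h2 := grow (K := C * |u - x|) h1 (by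
    intro s hs
    obtain ⟨-, -, h3⟩ := h.2 _ (hz s hs).1 (hz s hs).2
    set D := logDeriv Gx ((⟨a, x⟩ : ℂ) + s * (((u - x : ℝ) : ℂ) * I))
    set y := ((⟨a, x⟩ : ℂ) + s * (((u - x : ℝ) : ℂ) * I)).im
    have h4 : (((u - x : ℝ) : ℂ) * I * D).re = -((u - x) * D.im) := by
      rw [mul_assoc, Complex.re_ofReal_mul]; simp
    rw [h4]
    have h5 : |D.im| ≤ C := by
      refine le_trans ?_ h3
      have := Complex.abs_im_le_norm (D - ((1 / 2 * Real.log y : ℝ) : ℂ))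
      rwa [Complex.sub_im, Complex.ofReal_im, sub_zero] at this
    refine (neg_le_abs _).trans ?_
    rw [abs_mul, mul_comm]
    gcongr) (right_mem_Icc.2 zero_le_one)
  have e3 : (⟨a, x⟩ : ℂ) + ((1 : ℝ) : ℂ) * (((u - x : ℝ) : ℂ) * I) = ⟨a, u⟩ := by
    apply Complex.ext <;> simp
  have e4 : (⟨a, x⟩ : ℂ) + ((0 : ℝ) : ℂ) * (((u - x : ℝ) : ℂ) * I) = ⟨a, x⟩ := by
    simp
  simp only [e3, e4, mul_one] at h2
  exact h2

/-- the constant for the growth on the lines `Re = 0, 1` -/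
lemma GE.all {C : ℝ} (h : GE C) {a : ℝ} (h0 : 0 ≤ a) (h1 : a ≤ 1) : ∃ M : ℝ, 1 ≤ M ∧
    ∀ x u : ℝ, 4 ≤ x → ‖Gx (ln a u)‖ ≤ M * ‖Gx (ln a x)‖ * Real.exp (C * |u - x|) := by
  have hC := h.1
  have hcont : ContinuousOn (fun u : ℝ => Gx (ln a u)) univ := by
    intro u _
    have : DifferentiableAt ℂ Gx (ln a u) := by
      unfold Gx
      have h3 : DifferentiableAt ℂ Gammaℝ (1 / 2 + ln a u) := by
        have h5 := (Complex.differentiable_Gammaℝ_inv.differentiableAt (x := 1 / 2 + ln a u)).inv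
          (inv_ne_zero (Complex.Gammaℝ_ne_zero_of_re_pos (by
            rw [Complex.add_re, ln_re]; norm_num; linarith)))
        have h6 : ((fun s : ℂ => (Gammaℝ s)⁻¹)⁻¹ : ℂ → ℂ) = Gammaℝ := by
          funext s
          simp
        rwa [h6] at h5
      have h4 : DifferentiableAt ℂ (fun w : ℂ => Gammaℝ (1 / 2 + w)) (ln a u) := by
        apply DifferentiableAt.comp (g := Gammaℝ) (f := fun w : ℂ => 1 / 2 + w)
        · exact h3
        · fun_prop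
      fun_prop
    exact (this.continuousAt.comp (ln_cont a).continuousAt).continuousWithinAt
  obtain ⟨B, hB⟩ := isCompact_Icc.exists_bound_of_continuousOn (hcont.mono (subset_univ (Icc (-4 : ℝ) 4)))
  have hG4 : 0 < ‖Gx (ln a 4)‖ := by
    refine norm_pos_iff.2 (Gx_ne (by rw [ln_re]; linarith) ?_)
    intro h5
    have := congrArg Complex.im h5
    rw [ln_im] at this
    norm_num at this
  refine ⟨max 1 (B / ‖Gx (ln a 4)‖), le_max_left _ _, fun x u hx => ?_⟩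
  have hln : ∀ v, ln a v = ⟨a, v⟩ := fun v => by apply Complex.ext <;> simp [ln]
  have hconj : ‖Gx (ln a u)‖ = ‖Gx (ln a |u|)‖ := by
    rcases le_or_gt 0 u with hu | hu
    · rw [abs_of_nonneg hu]
    · rw [abs_of_neg hu]
      have e : ln a u = starRingEnd ℂ (ln a (-u)) := by
        apply Complex.ext <;> simp [ln]
      rw [e, Gx_conj, RCLike.norm_conj]
  have habs : |(|u|) - x| ≤ |u - x| := by
    have := abs_abs_sub_abs_le u x
    rwa [abs_of_nonneg (by linarith : (0 : ℝ) ≤ x)] at this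
  have ha : |a| ≤ 2 := by rw [abs_of_nonneg h0]; linarith
  rcases le_or_gt 4 |u| with hu | hu
  · rw [hconj]
    have h6 := h.ver (a := a) hx hu (by linarith) (by linarith)
    rw [← hln, ← hln] at h6
    calc ‖Gx (ln a |u|)‖ ≤ 1 * ‖Gx (ln a x)‖ * Real.exp (C * |(|u|) - x|) := by rw [one_mul]; exact h6
      _ ≤ _ := by
        gcongr
        exact le_max_left _ _
  · have h7 : ‖Gx (ln a u)‖ ≤ B := hB u ⟨(abs_lt.1 hu).1.le, (abs_lt.1 hu).2.le⟩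
    have h8 := h.ver (a := a) hx (le_refl 4) (by linarith) (by linarith)
    rw [← hln, ← hln] at h8
    have h9 : |4 - x| ≤ |u - x| := by
      rw [abs_of_nonpos (by linarith), abs_of_nonpos (by linarith [(abs_lt.1 hu).2])]
      linarith [(abs_lt.1 hu).2]
    have hB0 : 0 ≤ B := (norm_nonneg _).trans h7
    calc ‖Gx (ln a u)‖ ≤ B := h7
      _ = B / ‖Gx (ln a 4)‖ * ‖Gx (ln a 4)‖ := by field_simp
      _ ≤ max 1 (B / ‖Gx (ln a 4)‖) * (‖Gx (ln a x)‖ * Real.exp (C * |4 - x|)) := by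
        gcongr
        exact le_max_right _ _
      _ ≤ max 1 (B / ‖Gx (ln a 4)‖) * (‖Gx (ln a x)‖ * Real.exp (C * |u - x|)) := by gcongr
      _ = _ := by ring

end Pool.Agent.Helper54.Nt
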