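import Pool.Agent.Helper54.Nt.G2

set_option autoImplicit false
set_option maxHeartbeats 1000000

/-!
Second order expansion of the gamma factor along the line `Re = 1`.
-/

open Complex MeasureTheory Set Filter Topology

namespace Pool.Agent.Helper54.Nt

open Pool.Agent.Helper54.Xm Pool.Agent.Helper54.Hf

lemma GE.lam {C : ℝ} (h : GE C) {x : ℝ} (hx : 4 ≤ x) :
    ‖logDeriv Gx (ln 1 x) - ((1 / 2 * Real.log x : ℝ) : ℂ)‖ ≤ C := by
  have := (h.2 (ln 1 x) (by rw [ln_im]; exact hx) (by rw [ln_im, ln_re, abs_one]; linarith)).2.2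
  rwa [ln_im] at this

lemma GE.lam_re {C : ℝ} (h : GE C) {x : ℝ} (hx : 4 ≤ x) :
    |(logDeriv Gx (ln 1 x)).re - 1 / 2 * Real.log x| ≤ C := by
  refine le_trans ?_ (h.lam hx)
  have := Complex.abs_re_le_norm (logDeriv Gx (ln 1 x) - ((1 / 2 * Real.log x : ℝ) : ℂ))
  rwa [Complex.sub_re, Complex.ofReal_re] at this

lemma GE.lam_im {C : ℝ} (h : GE C) {x : ℝ} (hx : 4 ≤ x) :
    |(logDeriv Gx (ln 1 x)).im| ≤ C := by
  refine le_trans ?_ (h.lam hx)
  have := Complex.abs_im_le_norm (logDeriv Gx (ln 1 x) - ((1 / 2 * Real.log x : ℝ) : ℂ))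
  rwa [Complex.sub_im, Complex.ofReal_im, sub_zero] at this

lemma GE.lip {C : ℝ} (h : GE C) {x : ℝ} (hx : 16 ≤ x) {z : ℂ} (hz : ‖z - ln 1 x‖ < x / 4) :
    ‖logDeriv Gx z - logDeriv Gx (ln 1 x)‖ ≤ 4 * (2 * C + 1) / x * ‖z - ln 1 x‖ := by
  have hgeo : ∀ z ∈ Metric.ball (ln 1 x) (x / 4), 3 / 4 * x < z.im ∧ z.im < 5 / 4 * x ∧
      |z.re| < z.im / 2 := by
    intro z hz
    rw [Metric.mem_ball, dist_eq_norm] at hz
    have h1 := (Complex.abs_im_le_norm (z - ln 1 x)).trans_lt hz
    have h2 := (Complex.abs_re_le_norm (z - ln 1 x)).trans_lt hz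
    rw [Complex.sub_im, ln_im, abs_lt] at h1
    rw [Complex.sub_re, ln_re, abs_lt] at h2
    refine ⟨by linarith, by linarith, ?_⟩
    rw [abs_lt]
    constructor <;> linarith
  have hd : DifferentiableOn ℂ (logDeriv Gx) (Metric.ball (ln 1 x) (x / 4)) := by
    have h1 : DifferentiableOn ℂ Gx (Metric.ball (ln 1 x) (x / 4)) := by
      intro z hz
      obtain ⟨a, b, c⟩ := hgeo z hz
      exact (h.2 z (by linarith) c.le).2.1.differentiableWithinAt
    have h2 := h1.deriv Metric.isOpen_ball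
    intro z hz
    obtain ⟨a, b, c⟩ := hgeo z hz
    exact (h2 z hz).div (h1 z hz) (h.2 z (by linarith) c.le).1
  have hC := h.1
  have hx0 : 0 < x := by linarith
  have hm : MapsTo (logDeriv Gx) (Metric.ball (ln 1 x) (x / 4))
      (Metric.ball (logDeriv Gx (ln 1 x)) (2 * C + 1)) := by
    intro z hz
    obtain ⟨a, b, c⟩ := hgeo z hz
    have h1 := (h.2 z (by linarith) c.le).2.2
    have h2 := h.lam (by linarith : 4 ≤ x)
    rw [Metric.mem_ball, dist_eq_norm]
    have e : logDeriv Gx z - logDeriv Gx (ln 1 x) =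
        (logDeriv Gx z - ((1 / 2 * Real.log z.im : ℝ) : ℂ)) -
        (logDeriv Gx (ln 1 x) - ((1 / 2 * Real.log x : ℝ) : ℂ)) +
        ((1 / 2 * Real.log z.im - 1 / 2 * Real.log x : ℝ) : ℂ) := by push_cast; ring
    have h3 : ‖((1 / 2 * Real.log z.im - 1 / 2 * Real.log x : ℝ) : ℂ)‖ < 1 := by
      rw [Complex.norm_real, Real.norm_eq_abs]
      have hz0 : 0 < z.im := by linarith
      have e2 : 1 / 2 * Real.log z.im - 1 / 2 * Real.log x = 1 / 2 * Real.log (z.im / x) := by
        rw [Real.log_div hz0.ne' hx0.ne']; ring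
      rw [e2, abs_lt]
      have h4 : Real.log (z.im / x) ≤ z.im / x - 1 := Real.log_le_sub_one_of_pos (by positivity)
      have h5 : Real.log (x / z.im) ≤ x / z.im - 1 := Real.log_le_sub_one_of_pos (by positivity)
      have h6 : Real.log (x / z.im) = - Real.log (z.im / x) := by
        rw [← Real.log_inv, inv_div]
      have h7 : z.im / x ≤ 5 / 4 := by rw [div_le_iff₀ hx0]; linarith
      have h8 : x / z.im ≤ 4 / 3 := by rw [div_le_iff₀ hz0]; linarith
      constructor <;> linarith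
    rw [e]
    calc _ ≤ ‖(logDeriv Gx z - ((1 / 2 * Real.log z.im : ℝ) : ℂ)) -
        (logDeriv Gx (ln 1 x) - ((1 / 2 * Real.log x : ℝ) : ℂ))‖ +
        ‖((1 / 2 * Real.log z.im - 1 / 2 * Real.log x : ℝ) : ℂ)‖ := norm_add_le _ _
      _ < (C + C) + 1 := by
        refine add_lt_add_of_le_of_lt ((norm_sub_le _ _).trans (add_le_add h1 h2)) h3
      _ = _ := by ring
  have h9 := Complex.dist_le_div_mul_dist_of_mapsTo_ball hd (hm.mono_right Metric.ball_subset_closedBall) (by
    rw [Metric.mem_ball, dist_eq_norm]; exact hz)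
  rw [dist_eq_norm, dist_eq_norm] at h9
  refine h9.trans (le_of_eq ?_)
  field_simp

/-- second order expansion -/
theorem exp2 : ∃ K : ℝ, 1 ≤ K ∧ ∀ x v : ℝ, 64 ≤ x →
    ‖Gx (ln 1 (x + v)) / Gx (ln 1 x) * cexp (-(I * v * logDeriv Gx (ln 1 x))) - 1‖ ≤
      K * (v ^ 2 / x) * Real.exp (K * |v|) := by
  obtain ⟨C, h⟩ := exists_GE
  obtain ⟨M, hM, hM2⟩ := h.all zero_le_one le_rfl
  have hC := h.1
  set K0 : ℝ := 4 * (2 * C + 1) with hK0
  have hK00 : 0 ≤ K0 := by rw [hK0]; linarith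
  refine ⟨K0 * Real.exp K0 + (M + 1) + 2 * C, ?_, fun x v hx => ?_⟩
  · have : 0 ≤ K0 * Real.exp K0 := by positivity
    linarith
  set K : ℝ := K0 * Real.exp K0 + (M + 1) + 2 * C with hK
  have hx0 : 0 < x := by linarith
  have hK1 : K0 * Real.exp K0 ≤ K := by rw [hK]; linarith
  have hK2 : M + 1 ≤ K := by
    have : 0 ≤ K0 * Real.exp K0 := by positivity
    rw [hK]; linarith
  have hK3 : 2 * C ≤ K := by
    have : 0 ≤ K0 * Real.exp K0 := by positivity
    rw [hK]; linarith
  have hKp : 0 ≤ K := by linarith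
  set lam := logDeriv Gx (ln 1 x) with hlam
  have hne : Gx (ln 1 x) ≠ 0 :=
    (h.2 (ln 1 x) (by rw [ln_im]; linarith) (by rw [ln_im, ln_re, abs_one]; linarith)).1
  have hexp1 : (1 : ℝ) ≤ Real.exp (K * |v|) := Real.one_le_exp (by positivity)
  rcases le_or_gt (v ^ 2) x with hv | hv
  · -- small `v`
    have hv8 : |v| ≤ x / 8 := by
      have : |v| ^ 2 ≤ (x / 8) ^ 2 := by rw [sq_abs]; nlinarith
      exact le_of_sq_le_sq this (by positivity)
    have hz : ∀ s ∈ Icc (0 : ℝ) 1, 4 ≤ (ln 1 x + s * ((v : ℂ) * I)).im ∧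
        |(ln 1 x + s * ((v : ℂ) * I)).re| ≤ (ln 1 x + s * ((v : ℂ) * I)).im / 2 := by
      intro s hs
      have e1 : (ln 1 x + s * ((v : ℂ) * I)).im = x + s * v := by simp [ln]
      have e2 : (ln 1 x + s * ((v : ℂ) * I)).re = 1 := by simp [ln]
      rw [e1, e2, abs_one]
      have h3 : |s * v| ≤ x / 8 := by
        rw [abs_mul, abs_of_nonneg hs.1]
        calc s * |v| ≤ 1 * |v| := by gcongr; exact hs.2
          _ ≤ _ := by rw [one_mul]; exact hv8
      have h4 := (abs_le.1 h3).1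
      constructor <;> linarith
    have h1 := h.line hz
    have h2 : ∀ s ∈ Icc (0 : ℝ) 1, HasDerivAt (fun s : ℝ => Gx (ln 1 x + s * ((v : ℂ) * I)) /
        Gx (ln 1 x) * cexp (-(I * v * lam) * s))
        (((v : ℂ) * I * (logDeriv Gx (ln 1 x + s * ((v : ℂ) * I)) - lam)) *
          (Gx (ln 1 x + s * ((v : ℂ) * I)) / Gx (ln 1 x) * cexp (-(I * v * lam) * s))) s := by
      intro s hs
      have h5 : HasDerivAt (fun s : ℝ => cexp (-(I * v * lam) * s))
          (cexp (-(I * v * lam) * s) * (-(I * v * lam))) s := by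
        have : HasDerivAt (fun s : ℝ => -(I * v * lam) * (s : ℂ)) (-(I * v * lam)) s := by
          have h6 : HasDerivAt (fun s : ℝ => (s : ℂ)) 1 s := Complex.ofRealCLM.hasDerivAt
          simpa using h6.const_mul (-(I * v * lam))
        exact this.cexp
      refine (((h1 s hs).div_const (Gx (ln 1 x))).mul h5).congr_deriv ?_
      field_simp
      ring
    have hKv : K0 * (v ^ 2 / x) ≤ K0 := by
      have : v ^ 2 / x ≤ 1 := by rw [div_le_one hx0]; exact hv
      nlinarith
    have h3 := grow_sub (K := K0 * (v ^ 2 / x)) (by positivity) h2 (by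
      intro s hs
      have e3 : ‖(ln 1 x + s * ((v : ℂ) * I)) - ln 1 x‖ = s * |v| := by
        rw [add_sub_cancel_left, norm_mul, norm_mul, norm_I, mul_one, Complex.norm_real,
          Complex.norm_real, Real.norm_of_nonneg hs.1, Real.norm_eq_abs]
      have hsv : s * |v| ≤ |v| := by
        calc s * |v| ≤ 1 * |v| := by gcongr; exact hs.2
          _ = _ := one_mul _
      have h4 := h.lip (by linarith : 16 ≤ x) (z := ln 1 x + s * ((v : ℂ) * I)) (by
        rw [e3]; linarith)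
      rw [e3] at h4
      rw [norm_mul, norm_mul, norm_I, mul_one, Complex.norm_real, Real.norm_eq_abs]
      calc |v| * ‖logDeriv Gx (ln 1 x + s * ((v : ℂ) * I)) - lam‖
          ≤ |v| * (4 * (2 * C + 1) / x * |v|) := by
            gcongr
            exact h4.trans (by gcongr)
        _ = K0 * (|v| ^ 2 / x) := by rw [hK0]; ring
        _ = _ := by rw [sq_abs])
    simp only [Complex.ofReal_one, Complex.ofReal_zero, one_mul, zero_mul, mul_zero, add_zero,
      Complex.exp_zero, mul_one] at h3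
    rw [div_self hne, norm_one, mul_one] at h3
    have e4 : ln 1 x + (v : ℂ) * I = ln 1 (x + v) := by
      unfold ln; push_cast; ring
    rw [e4] at h3
    refine h3.trans ?_
    calc K0 * (v ^ 2 / x) * Real.exp (K0 * (v ^ 2 / x)) ≤ K0 * (v ^ 2 / x) * Real.exp K0 := by gcongr
      _ = K0 * Real.exp K0 * (v ^ 2 / x) * 1 := by ring
      _ ≤ K * (v ^ 2 / x) * Real.exp (K * |v|) := by gcongr
  · -- large `v`
    have h1 : 1 ≤ v ^ 2 / x := by rw [one_le_div hx0]; exact hv.le
    have h2 := hM2 x (x + v) (by linarith)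
    have h3 : ‖cexp (-(I * v * lam))‖ ≤ Real.exp (C * |v|) := by
      rw [Complex.norm_exp]
      apply Real.exp_le_exp.2
      have e : (-(I * v * lam)).re = v * lam.im := by simp
      rw [e]
      refine (le_abs_self _).trans ?_
      rw [abs_mul, mul_comm]
      gcongr
      exact h.lam_im (by linarith)
    have e5 : x + v - x = v := by ring
    rw [e5] at h2
    have h4 : ‖Gx (ln 1 (x + v)) / Gx (ln 1 x) * cexp (-(I * v * lam))‖ ≤
        M * Real.exp (2 * C * |v|) := by
      rw [norm_mul, norm_div]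
      have h5 : 0 < ‖Gx (ln 1 x)‖ := norm_pos_iff.2 hne
      calc ‖Gx (ln 1 (x + v))‖ / ‖Gx (ln 1 x)‖ * ‖cexp (-(I * v * lam))‖
          ≤ (M * ‖Gx (ln 1 x)‖ * Real.exp (C * |v|)) / ‖Gx (ln 1 x)‖ * Real.exp (C * |v|) := by
            gcongr
        _ = M * (Real.exp (C * |v|) * Real.exp (C * |v|)) := by field_simp
        _ = _ := by rw [← Real.exp_add]; ring_nf
    calc ‖Gx (ln 1 (x + v)) / Gx (ln 1 x) * cexp (-(I * v * lam)) - 1‖
        ≤ M * Real.exp (2 * C * |v|) + 1 := by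
          refine (norm_sub_le _ _).trans ?_
          rw [norm_one]
          linarith
      _ ≤ M * Real.exp (2 * C * |v|) + Real.exp (2 * C * |v|) := by
          have : (1 : ℝ) ≤ Real.exp (2 * C * |v|) := Real.one_le_exp (by positivity)
          linarith
      _ = (M + 1) * 1 * Real.exp (2 * C * |v|) := by ring
      _ ≤ K * (v ^ 2 / x) * Real.exp (K * |v|) := by gcongr

end Pool.Agent.Helper54.Nt
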