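import Pool.Agent.Helper54.Nt.G3

set_option autoImplicit false
set_option maxHeartbeats 1000000

/-!
The upper bound for the heat flow at negative times.
-/

open Complex MeasureTheory Set Filter Topology

namespace Pool.Agent.Helper54.Nt

open Pool.Agent.Helper54.Xm Pool.Agent.Helper54.Hf

lemma gauss8 {τ : ℝ} (hτ : 0 < τ) (x : ℝ) :
    ∫ u : ℝ, Real.exp (-(u - x) ^ 2 / (8 * τ)) = Real.sqrt (8 * Real.pi * τ) := by
  rw [integral_sub_right_eq_self (fun u : ℝ => Real.exp (-u ^ 2 / (8 * τ))) x]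
  have h := integral_gaussian (1 / (8 * τ))
  have e : ∀ u : ℝ, Real.exp (-u ^ 2 / (8 * τ)) = Real.exp (-(1 / (8 * τ)) * u ^ 2) := by
    intro u; congr 1; ring
  simp only [e]
  rw [h]
  congr 1
  field_simp

lemma gauss8_int {τ : ℝ} (hτ : 0 < τ) (x : ℝ) :
    Integrable (fun u : ℝ => Real.exp (-(u - x) ^ 2 / (8 * τ))) := by
  have h := (integrable_exp_neg_mul_sq (b := 1 / (8 * τ)) (by positivity)).comp_sub_right x
  refine h.congr (Eventually.of_forall fun u => ?_)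
  simp only
  congr 1
  ring

lemma young {τ : ℝ} (hτ : 0 < τ) (c v : ℝ) :
    c * |v| + -v ^ 2 / (4 * τ) ≤ 2 * τ * c ^ 2 + -v ^ 2 / (8 * τ) := by
  have h1 : v ^ 2 = |v| ^ 2 := (sq_abs v).symm
  rw [h1]
  have h2 : 0 ≤ (4 * τ * c - |v|) ^ 2 / (8 * τ) := by positivity
  have e : (4 * τ * c - |v|) ^ 2 / (8 * τ) = 2 * τ * c ^ 2 - c * |v| + |v| ^ 2 / (8 * τ) := by
    field_simp; ring
  rw [e] at h2
  have e2 : -|v| ^ 2 / (4 * τ) = -|v| ^ 2 / (8 * τ) - |v| ^ 2 / (8 * τ) := by field_simp; ring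
  rw [e2]
  linarith

lemma fx_line0 (u : ℝ) : ‖fx (ln 0 u)‖ ≤ ‖Gx (ln 0 u)‖ * (6 * (|u| + 2) ^ 2) := by
  have hre : (1 / 2 + ln 0 u).re = 1 / 2 := by rw [Complex.add_re, ln_re]; norm_num
  rw [fx_eq (by rw [ln_re]; norm_num) (by
    intro h
    have := congrArg Complex.re h
    rw [ln_re] at this
    norm_num at this), norm_mul]
  refine mul_le_mul_of_nonneg_left ?_ (norm_nonneg _)
  have h := Pool.Agent.H306R2.zeta_norm_le (s := 1 / 2 + ln 0 u) (by rw [hre]) (by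
    refine le_trans ?_ (Complex.abs_re_le_norm _)
    rw [Complex.sub_re, hre, Complex.one_re]
    rw [abs_of_neg (by norm_num)]; norm_num)
  refine h.trans ?_
  have h2 : ‖(1 / 2 + ln 0 u : ℂ)‖ ≤ 1 / 2 + |u| := by
    refine (norm_add_le _ _).trans ?_
    have e1 : ‖(1 / 2 : ℂ)‖ = 1 / 2 := by norm_num
    have e2 : ‖ln 0 u‖ = |u| := by
      unfold ln; rw [Complex.ofReal_zero, zero_add, norm_mul, norm_I, mul_one, Complex.norm_real,
        Real.norm_eq_abs]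
    rw [e1, e2]
  have h3 : ‖(1 / 2 + ln 0 u : ℂ)‖ + 1 ≤ |u| + 2 := by linarith
  gcongr

/-- bound through the vertical line `Re = 0` -/
lemma Hx_line0 {τ : ℝ} (hτ : 0 < τ) : ∃ B : ℝ, 1 ≤ B ∧ ∀ a x : ℝ, 4 ≤ x →
    ‖Hx (-τ) ⟨a, x⟩‖ ≤ B * (x + 2) ^ 2 * ‖Gx ⟨0, x⟩‖ * Real.exp (a ^ 2 / (4 * τ)) := by
  obtain ⟨C, h⟩ := exists_GE
  obtain ⟨M, hM, hM2⟩ := h.all le_rfl zero_le_one
  have hC := h.1
  refine ⟨12 * M * Real.exp (2 * τ * (C + 2) ^ 2), ?_, fun a x hx => ?_⟩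
  · have : (1 : ℝ) ≤ Real.exp (2 * τ * (C + 2) ^ 2) := Real.one_le_exp (by positivity)
    nlinarith
  have e0 : (⟨0, x⟩ : ℂ) = ln 0 x := by apply Complex.ext <;> simp [ln]
  rw [e0]
  set B : ℝ := 6 * M * Real.exp (2 * τ * (C + 2) ^ 2) * (x + 2) ^ 2 * ‖Gx (ln 0 x)‖ *
    Real.exp (a ^ 2 / (4 * τ)) with hB
  have hp : ∀ u : ℝ, ‖fx (ln 0 u) * cexp ((ln 0 u - ⟨a, x⟩) ^ 2 / (4 * τ))‖ ≤
      B * Real.exp (-(u - x) ^ 2 / (8 * τ)) := by
    intro u
    rw [norm_mul, norm_gk]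
    have h1 : ‖fx (ln 0 u)‖ ≤ (M * ‖Gx (ln 0 x)‖ * Real.exp (C * |u - x|)) *
        (6 * ((x + 2) ^ 2 * Real.exp (2 * |u - x|))) := by
      refine (fx_line0 u).trans ?_
      gcongr
      · exact hM2 x u hx
      · have h2 : |u| ≤ |u - x| + x := by
          have := abs_add_le (u - x) x
          rw [sub_add_cancel, abs_of_nonneg (by linarith : (0 : ℝ) ≤ x)] at this
          exact this
        have h3 : |u| + 2 ≤ (x + 2) * Real.exp |u - x| := by
          have h4 := Real.add_one_le_exp |u - x|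
          nlinarith [abs_nonneg (u - x)]
        calc (|u| + 2) ^ 2 ≤ ((x + 2) * Real.exp |u - x|) ^ 2 := by gcongr
          _ = (x + 2) ^ 2 * Real.exp (2 * |u - x|) := by
            rw [mul_pow, ← Real.exp_nat_mul]; norm_num
    have e1 : Real.exp (((0 - (⟨a, x⟩ : ℂ).re) ^ 2 - (u - (⟨a, x⟩ : ℂ).im) ^ 2) / (4 * τ)) =
        Real.exp (a ^ 2 / (4 * τ)) * Real.exp (-(u - x) ^ 2 / (4 * τ)) := by
      rw [← Real.exp_add, ← add_div]
      congr 2
      simp only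
      ring
    rw [e1]
    calc ‖fx (ln 0 u)‖ * (Real.exp (a ^ 2 / (4 * τ)) * Real.exp (-(u - x) ^ 2 / (4 * τ)))
        ≤ (M * ‖Gx (ln 0 x)‖ * Real.exp (C * |u - x|)) *
          (6 * ((x + 2) ^ 2 * Real.exp (2 * |u - x|))) *
          (Real.exp (a ^ 2 / (4 * τ)) * Real.exp (-(u - x) ^ 2 / (4 * τ))) := by gcongr
      _ = 6 * M * (x + 2) ^ 2 * ‖Gx (ln 0 x)‖ * Real.exp (a ^ 2 / (4 * τ)) *
          Real.exp ((C + 2) * |u - x| + -(u - x) ^ 2 / (4 * τ)) := by
        rw [Real.exp_add, add_mul, Real.exp_add]; ring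
      _ ≤ 6 * M * (x + 2) ^ 2 * ‖Gx (ln 0 x)‖ * Real.exp (a ^ 2 / (4 * τ)) *
          Real.exp (2 * τ * (C + 2) ^ 2 + -(u - x) ^ 2 / (8 * τ)) := by
        gcongr _ * Real.exp ?_
        exact young hτ _ _
      _ = _ := by rw [Real.exp_add, hB]; ring
  have h5 := norm_integral_le_of_norm_le ((gauss8_int hτ x).const_mul B) (Eventually.of_forall hp)
  rw [Hx_neg hτ 0 ⟨a, x⟩, integral_const_mul, gauss8 hτ, norm_mul, Complex.norm_real,
    Real.norm_of_nonneg (Real.sqrt_nonneg _)] at h5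
  have h6 : Real.sqrt (8 * Real.pi * τ) ≤ 2 * Real.sqrt (4 * Real.pi * τ) := by
    have : (2 : ℝ) = Real.sqrt 4 := by
      rw [show (4 : ℝ) = 2 ^ 2 by norm_num, Real.sqrt_sq (by norm_num)]
    rw [this, ← Real.sqrt_mul (by norm_num)]
    apply Real.sqrt_le_sqrt
    have := Real.pi_pos
    nlinarith [mul_pos this hτ]
  have h7 : 0 < Real.sqrt (4 * Real.pi * τ) := Real.sqrt_pos.2 (by positivity)
  have h8 : Real.sqrt (4 * Real.pi * τ) * ‖Hx (-τ) ⟨a, x⟩‖ ≤
      Real.sqrt (4 * Real.pi * τ) * (2 * B) := by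
    refine h5.trans ?_
    have hB0 : 0 ≤ B := by rw [hB]; positivity
    nlinarith
  have h9 := le_of_mul_le_mul_left h8 h7
  refine h9.trans (le_of_eq ?_)
  rw [hB]; ring

/-- the upper bound -/
theorem upper {τ A δ : ℝ} (hτ : 0 < τ) (hA : 0 < A) (hδ : 0 < δ) (hδ1 : δ ≤ 1) :
    ∃ E T0 : ℝ, 0 ≤ E ∧ 16 ≤ T0 ∧ ∀ T : ℝ, T0 ≤ T → ∀ a x : ℝ, δ / 4 * T ≤ x → x ≤ 4 * T →
      |a| ≤ A * Real.log T →
      ‖Hx (-τ) ⟨a, x⟩‖ ≤ ‖Gx ⟨a, x⟩‖ *
        Real.exp (a ^ 2 / (4 * τ) - Real.log T / 2 * a + E * Real.log T) := by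
  obtain ⟨C, h⟩ := exists_GE
  obtain ⟨B, hB, hB2⟩ := Hx_line0 hτ
  have hC := h.1
  set c : ℝ := Real.log (4 / δ) with hc
  have h4δ : 1 < 4 / δ := by rw [lt_div_iff₀ hδ]; linarith
  have hc0 : 0 < c := Real.log_pos h4δ
  have hev : ∀ᶠ T : ℝ in atTop, A * Real.log T ≤ δ / 8 * T := by
    have h1 := Real.isLittleO_log_id_atTop.bound (show (0 : ℝ) < δ / (8 * A) by positivity)
    filter_upwards [h1, eventually_ge_atTop 1] with T h2 h3
    rw [Real.norm_of_nonneg (Real.log_nonneg h3)] at h2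
    simp only [id, Real.norm_of_nonneg (by linarith : (0 : ℝ) ≤ T)] at h2
    calc A * Real.log T ≤ A * (δ / (8 * A) * T) := by gcongr
      _ = _ := by field_simp
  obtain ⟨T1, hT1⟩ := eventually_atTop.1 hev
  refine ⟨(C + c) * A + 4 + Real.log B, max T1 (max 16 (32 / δ)), ?_, ?_, ?_⟩
  · have := Real.log_nonneg hB
    positivity
  · exact (le_max_left _ _).trans (le_max_right _ _)
  intro T hT a x hx1 hx2 ha
  have hT1' := hT1 T ((le_max_left _ _).trans hT)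
  have hT16 : 16 ≤ T := ((le_max_left _ _).trans (le_max_right _ _)).trans hT
  have hT32 : 32 / δ ≤ T := ((le_max_right _ _).trans (le_max_right _ _)).trans hT
  have hx8 : 8 ≤ x := by
    rw [div_le_iff₀ hδ] at hT32
    linarith
  have hT0 : 0 < T := by linarith
  have hx0 : 0 < x := by linarith
  have hL1 : 1 ≤ Real.log T := by
    rw [Real.le_log_iff_exp_le hT0]
    exact Real.exp_one_lt_d9.le.trans (by norm_num; linarith)
  have ha2 : |a| ≤ x / 2 := by linarith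
  have h1 := hB2 a x (by linarith)
  have h2 := h.hor (a := a) (b := 0) (by linarith : 4 ≤ x) ha2 (by rw [abs_zero]; positivity)
  rw [zero_sub, abs_neg] at h2
  have hlx : |Real.log x - Real.log T| ≤ c := by
    rw [← Real.log_div hx0.ne' hT0.ne', abs_le]
    constructor
    · have : -c = Real.log (δ / 4) := by rw [hc, ← Real.log_inv, inv_div]
      rw [this]
      apply Real.log_le_log (by positivity)
      rw [le_div_iff₀ hT0]; exact hx1
    · apply Real.log_le_log (by positivity)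
      rw [div_le_iff₀ hT0]
      have : 4 ≤ 4 / δ := by rw [le_div_iff₀ hδ]; linarith
      nlinarith
  have hx2T : x + 2 ≤ T * 5 := by linarith
  have hlogB : Real.exp (Real.log B) = B := Real.exp_log (by linarith)
  have h5 : B * (x + 2) ^ 2 ≤ Real.exp ((4 + Real.log B) * Real.log T) := by
    have a1 : (x + 2) ≤ T ^ 2 := by nlinarith
    have a2 : T ^ 4 = Real.exp (4 * Real.log T) := by
      rw [mul_comm, Real.exp_mul, Real.exp_log hT0]; norm_cast
    have a3 : (x + 2) ^ 2 ≤ Real.exp (4 * Real.log T) := by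
      rw [← a2]
      calc (x + 2) ^ 2 ≤ (T ^ 2) ^ 2 := by gcongr
        _ = T ^ 4 := by ring
    have a4 : B ≤ Real.exp (Real.log B * Real.log T) := by
      nth_rewrite 1 [← hlogB]
      apply Real.exp_le_exp.2
      have := Real.log_nonneg hB
      nlinarith
    calc B * (x + 2) ^ 2 ≤ Real.exp (Real.log B * Real.log T) * Real.exp (4 * Real.log T) := by gcongr
      _ = _ := by rw [← Real.exp_add]; ring_nf
  refine h1.trans ?_
  calc B * (x + 2) ^ 2 * ‖Gx ⟨0, x⟩‖ * Real.exp (a ^ 2 / (4 * τ))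
      ≤ Real.exp ((4 + Real.log B) * Real.log T) * (‖Gx ⟨a, x⟩‖ *
        Real.exp (-a * (1 / 2 * Real.log x) + C * |a|)) * Real.exp (a ^ 2 / (4 * τ)) := by gcongr
    _ = ‖Gx ⟨a, x⟩‖ * Real.exp ((4 + Real.log B) * Real.log T +
        (-a * (1 / 2 * Real.log x) + C * |a|) + a ^ 2 / (4 * τ)) := by
      rw [Real.exp_add ((4 + Real.log B) * Real.log T +
        (-a * (1 / 2 * Real.log x) + C * |a|)), Real.exp_add ((4 + Real.log B) * Real.log T)]
      ring
    _ ≤ _ := by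
      gcongr _ * Real.exp ?_
      have b1 : -a * (1 / 2 * Real.log x) ≤ - (Real.log T / 2 * a) + c * |a| := by
        have b2 : -a * (1 / 2 * Real.log x) = -(Real.log T / 2 * a) + -(a * (Real.log x - Real.log T)) / 2 := by ring
        rw [b2]
        have b3 : -(a * (Real.log x - Real.log T)) ≤ |a| * c := by
          refine (neg_le_abs _).trans ?_
          rw [abs_mul]
          gcongr
        nlinarith [abs_nonneg a]
      nlinarith [abs_nonneg a]

end Pool.Agent.Helper54.Nt
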